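import Pool.Agent.KDT.StmtsK
import Pool.Agent.Helper92_SZT.PRO
import Pool.Agent.Helper21_SZT.MII
import Pool.Agent.Helper77_SZT.MIK

/-!
# KDT, row TRL (helper48): translation of a Mumford pair by a 2-torsion point
-/

set_option autoImplicit false

namespace Pool.Agent.KDT.H48

open Polynomial NumberField H58Q Pool.Agent.SZT

section

variable {K : Type} [Field K]

theorem mi_change {f A B V : K[X]} (hB : A ∣ B ^ 2 - f) (hV : A ∣ V - B) :
    MI f A B = MI f A V := by
  have hV2 : A ∣ V ^ 2 - f := by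
    have e : V ^ 2 - f = (V - B) * (V + B) + (B ^ 2 - f) := by ring
    rw [e]
    exact dvd_add (hV.mul_right _) hB
  ext z
  obtain ⟨U, W⟩ := z
  rw [SZT.H77.mik K f A B U W hB, SZT.H77.mik K f A V U W hV2]
  have e : U + W * V = (U + W * B) + W * (V - B) := by ring
  rw [e]
  constructor
  · intro h
    exact dvd_add h (hV.mul_left _)
  · intro h
    exact (dvd_add_left (hV.mul_left W)).1 h

theorem mi_mul {f A₁ A₂ V : K[X]} (h2 : (2 : K) ≠ 0) (hf : Squarefree f)
    (hd : A₁ * A₂ ∣ V ^ 2 - f) : MI f A₁ V * MI f A₂ V = MI f (A₁ * A₂) V := by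
  apply le_antisymm
  · exact Pool.Agent.Helper92_SZT.prod_le SZT.H77.mik f A₁ V A₂ V V hd (by simp) (by simp)
  · obtain ⟨E, hE⟩ := hd
    obtain ⟨a, b, c, habc⟩ := SZT.H21.bezout (A := A₁) (A' := A₂ * E) (B := V) h2 hf
      (by rw [hE]; ring)
    have hfe : f = V ^ 2 - A₁ * A₂ * E := by
      rw [← hE]
      ring
    have g1 : (⟨A₁, 0⟩ : Q K f) * ⟨A₂, 0⟩ ∈ MI f A₁ V * MI f A₂ V :=
      Ideal.mul_mem_mul (Ideal.subset_span (by simp)) (Ideal.subset_span (by simp))
    have g2 : (⟨A₁, 0⟩ : Q K f) * ⟨-V, 1⟩ ∈ MI f A₁ V * MI f A₂ V :=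
      Ideal.mul_mem_mul (Ideal.subset_span (by simp)) (Ideal.subset_span (by simp))
    have g3 : (⟨-V, 1⟩ : Q K f) * ⟨A₂, 0⟩ ∈ MI f A₁ V * MI f A₂ V :=
      Ideal.mul_mem_mul (Ideal.subset_span (by simp)) (Ideal.subset_span (by simp))
    have g4 : (⟨-V, 1⟩ : Q K f) * ⟨-V, 1⟩ ∈ MI f A₁ V * MI f A₂ V :=
      Ideal.mul_mem_mul (Ideal.subset_span (by simp)) (Ideal.subset_span (by simp))
    have e1 : (⟨A₁ * A₂, 0⟩ : Q K f) = ⟨A₁, 0⟩ * ⟨A₂, 0⟩ := by
      apply QuadraticAlgebra.ext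
      · simp only [QuadraticAlgebra.re_mul]
        ring
      · simp only [QuadraticAlgebra.im_mul]
        ring
    have e2 : (⟨-V, 1⟩ : Q K f) = ⟨a, 0⟩ * (⟨A₁, 0⟩ * ⟨-V, 1⟩) +
        (⟨b * E, 0⟩ * (⟨-V, 1⟩ * ⟨A₂, 0⟩) +
          (⟨-(c * E), 0⟩ * (⟨A₁, 0⟩ * ⟨A₂, 0⟩) + ⟨-c, 0⟩ * (⟨-V, 1⟩ * ⟨-V, 1⟩))) := by
      apply QuadraticAlgebra.ext
      · simp only [QuadraticAlgebra.re_mul, QuadraticAlgebra.im_mul, QuadraticAlgebra.re_add,
          QuadraticAlgebra.im_add]
        rw [hfe]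
        linear_combination V * habc
      · simp only [QuadraticAlgebra.re_mul, QuadraticAlgebra.im_mul, QuadraticAlgebra.re_add,
          QuadraticAlgebra.im_add]
        rw [hfe]
        linear_combination -habc
    have m1 : (⟨A₁ * A₂, 0⟩ : Q K f) ∈ MI f A₁ V * MI f A₂ V := by
      rw [e1]
      exact g1
    have m2 : (⟨-V, 1⟩ : Q K f) ∈ MI f A₁ V * MI f A₂ V := by
      rw [e2]
      exact Ideal.add_mem _ (Ideal.mul_mem_left _ _ g2) (Ideal.add_mem _
        (Ideal.mul_mem_left _ _ g3) (Ideal.add_mem _ (Ideal.mul_mem_left _ _ g1)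
          (Ideal.mul_mem_left _ _ g4)))
    show Ideal.span {(⟨A₁ * A₂, 0⟩ : Q K f), ⟨-V, 1⟩} ≤ _
    rw [Ideal.span_le, Set.insert_subset_iff, Set.singleton_subset_iff]
    exact ⟨m1, m2⟩

theorem mi_top {f V P : K[X]} (hP : f - V ^ 2 = P) :
    MI f P V = Ideal.span {(⟨-V, 1⟩ : Q K f)} := by
  apply le_antisymm
  · show Ideal.span {(⟨P, 0⟩ : Q K f), ⟨-V, 1⟩} ≤ _
    rw [Ideal.span_le, Set.insert_subset_iff, Set.singleton_subset_iff]
    refine ⟨?_, Ideal.mem_span_singleton_self _⟩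
    have e1 : (⟨P, 0⟩ : Q K f) = ⟨V, 1⟩ * ⟨-V, 1⟩ := by
      rw [← hP]
      apply QuadraticAlgebra.ext
      · simp only [QuadraticAlgebra.re_mul]
        ring
      · simp only [QuadraticAlgebra.im_mul]
        ring
    rw [e1]
    exact Ideal.mul_mem_left _ _ (Ideal.mem_span_singleton_self _)
  · rw [Ideal.span_singleton_le_iff_mem]
    exact Ideal.subset_span (by simp)

end

/-- Row TRL. -/
theorem trl (tro : TroStatement) : TrlStatement := by
  intro K _ f A B a h2 hfm hf5 hsq hM hA2 ha hAa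
  set c : K := B.eval a / A.eval a with hc
  set V : K[X] := B - C c * A with hVdef
  have hBdeg : B.natDegree < 2 := by
    have h := hM.deg
    rw [← hA2]
    rcases eq_or_ne B 0 with h0 | h0
    · rw [h0, natDegree_zero]
      omega
    · exact natDegree_lt_natDegree h0 h
  have hVd : V.natDegree ≤ 2 := by
    refine (natDegree_sub_le _ _).trans (max_le hBdeg.le ?_)
    refine (natDegree_C_mul_le _ _).trans hA2.le
  have hVa : V.eval a = 0 := by
    simp only [hVdef, eval_sub, eval_mul, eval_C]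
    rw [hc, div_mul_cancel₀ _ hAa, sub_self]
  have hAV : A ∣ V - B := ⟨-C c, by rw [hVdef]; ring⟩
  have hAV2 : A ∣ f - V ^ 2 := by
    have e : f - V ^ 2 = -((V - B) * (V + B) + (B ^ 2 - f)) := by ring
    rw [e]
    exact (dvd_add (hAV.mul_right _) hM.dvd).neg_right
  obtain ⟨D, hD⟩ := hAV2
  have hfa : f.eval a = 0 := ha
  have hDa : D.IsRoot a := by
    have h := congrArg (Polynomial.eval a) hD
    rw [eval_sub, eval_pow, hVa, hfa, eval_mul] at h
    have h' : A.eval a * D.eval a = 0 := by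
      rw [← h]
      ring
    exact (mul_eq_zero.1 h').resolve_left hAa
  obtain ⟨A', hA'⟩ := dvd_iff_isRoot.2 hDa
  have heq : f - V ^ 2 = (X - C a) * A * A' := by
    rw [hD, hA']
    ring
  -- degrees
  have hV2d : (V ^ 2).natDegree < 5 := by
    refine lt_of_le_of_lt natDegree_pow_le ?_
    omega
  have hV2deg : (V ^ 2).degree < f.degree := by
    rw [degree_eq_natDegree hfm.ne_zero, hf5]
    refine lt_of_le_of_lt degree_le_natDegree ?_
    exact_mod_cast hV2d
  have hmon : (f - V ^ 2).Monic := hfm.sub_of_left hV2deg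
  have hXA : ((X - C a) * A).Monic := (monic_X_sub_C a).mul hM.monic
  have hA'm : A'.Monic := by
    rw [heq] at hmon
    exact hXA.of_mul_monic_left hmon
  have hdeg5 : (f - V ^ 2).natDegree = 5 := by
    rw [natDegree_sub_eq_left_of_natDegree_lt (by rw [hf5]; exact hV2d), hf5]
  have hA'2 : A'.natDegree = 2 := by
    rw [heq, hXA.natDegree_mul hA'm, (monic_X_sub_C a).natDegree_mul hM.monic,
      natDegree_X_sub_C, hA2] at hdeg5
    omega
  set B' : K[X] := (-V) %ₘ A' with hB'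
  have hVB' : A' ∣ V + B' := by
    have h := modByMonic_add_div (-V) A'
    refine ⟨-((-V) /ₘ A'), ?_⟩
    rw [hB']
    linear_combination h
  have hA'V : A' ∣ V ^ 2 - f := by
    have e : V ^ 2 - f = A' * (-((X - C a) * A)) := by
      linear_combination -heq
    exact ⟨_, e⟩
  have hM' : Mum f A' B' := by
    refine ⟨hA'm, degree_modByMonic_lt _ hA'm, ?_⟩
    have e : B' ^ 2 - f = (V + B') * (B' - V) + (V ^ 2 - f) := by ring
    rw [e]
    exact dvd_add (hVB'.mul_right _) hA'V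
  refine ⟨A', B', V, ⟨hM', hA'2, hVd, heq, hAV, hVa, hVB', ?_, ?_, ?_⟩⟩
  · have h := congrArg (fun p : K[X] => (derivative p).eval a) heq
    simp only [derivative_sub, derivative_mul, derivative_pow, derivative_X, derivative_C,
      eval_sub, eval_mul, eval_add, eval_X, eval_C, eval_pow, hVa] at h
    have h0 : (0 : K) ^ (2 - 1) = 0 := by norm_num
    simp only [sub_self, zero_mul, add_zero, eval_one, eval_zero, h0] at h
    linear_combination -h
  · intro b hb hba hAb
    have hfb : f.eval b = 0 := hb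
    have h1 := congrArg (Polynomial.eval b) heq
    simp only [eval_sub, eval_mul, eval_pow, eval_X, eval_C] at h1
    rw [hfb] at h1
    have h2' := (tro K f A B a b hfm hf5 hM hA2 ha hb).1
    have hVb : V.eval b * A.eval a = A.eval a * B.eval b - B.eval a * A.eval b := by
      simp only [hVdef, eval_sub, eval_mul, eval_C]
      rw [hc]
      field_simp
    have h3 : A.eval a * A.eval b * (b - a) * (A'.eval b * A.eval a) =
        A.eval a * A.eval b * (b - a) * ((a - b) * tau f a b (kum f A B)) := by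
      have e1 : (V.eval b * A.eval a) ^ 2 =
          A.eval a * A.eval b * (a - b) ^ 2 * tau f a b (kum f A B) := by
        rw [hVb]
        exact h2'
      linear_combination (-(A.eval a) ^ 2) * h1 - e1
    have hne : A.eval a * A.eval b * (b - a) ≠ 0 :=
      mul_ne_zero (mul_ne_zero hAa hAb) (sub_ne_zero.2 hba)
    exact mul_left_cancel₀ hne h3
  · have hXf : (X - C a) ∣ (0 : K[X]) ^ 2 - f := by
      have e : (0 : K[X]) ^ 2 - f = -f := by ring
      rw [e]
      exact (dvd_iff_isRoot.2 ha).neg_right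
    have hXV : (X - C a) ∣ V - 0 := by
      rw [sub_zero]
      exact dvd_iff_isRoot.2 hVa
    have hA'B : A' ∣ (-B') ^ 2 - f := by
      have e : (-B') ^ 2 - f = B' ^ 2 - f := by ring
      rw [e]
      exact hM'.dvd
    have hA'VB : A' ∣ V - (-B') := by
      rw [sub_neg_eq_add]
      exact hVB'
    rw [mi_change hM.dvd hAV, mi_change hXf hXV, mi_change hA'B hA'VB]
    have hd1 : A * (X - C a) ∣ V ^ 2 - f := ⟨-A', by linear_combination -heq⟩
    have hd2 : A * (X - C a) * A' ∣ V ^ 2 - f := ⟨-1, by linear_combination -heq⟩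
    rw [mi_mul h2 hsq hd1, mi_mul h2 hsq hd2]
    exact mi_top (by rw [heq]; ring)

end Pool.Agent.KDT.H48
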